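import Pool.Agent.H87.QP.Targets
import Pool.Agent.H10.ES.EXA

/-!
# Board qp_modules, row EXB: the exponential moments of the bilinear tests (helper50)
-/

set_option autoImplicit false

open Finset Pool.Agent.H18.MR Pool.Agent.H93.DE Pool.Agent.H6.N4D Pool.Agent.H93 Pool.Agent.H93.ES
  Pool.Agent.H28.NW Pool.Agent.H87.QP

namespace Pool.Agent.H50.QP

theorem exb_exp {κ x : ℝ} (h0 : 0 ≤ x) (h3 : x ≤ 3) :
    Real.exp (2 * κ * x ^ 2) ≤ 1 + 3 * x * Real.exp (18 * κ) := by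
  have h9 : x ^ 2 ≤ 9 := by nlinarith
  refine (Pool.Agent.H10.ES.exa_exp (κ := κ) (sq_nonneg x) h9).trans ?_
  have h := Real.exp_pos (18 * κ)
  have h1 : x ^ 2 ≤ 3 * x := by nlinarith
  nlinarith [mul_le_mul_of_nonneg_right h1 h.le]

/-- One sample. -/
theorem exb_smp (hH : T_HFC) {R D m q : ℕ} (hD : 1 ≤ D) (hR1 : 1 ≤ R) {κ : ℝ} (hκ0 : 0 ≤ κ)
    (hR : 1000 * κ ≤ R) (hq : q ∈ oct m) (k : ℕ) (f : ℕ → ℝ) (hf : ∀ t, |f t| ≤ 1) (r₀ : ℕ)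
    (α : ℝ) :
    avE R D (fun e => Real.exp (κ * ‖smp f m (kA q r₀ α) e k‖ ^ 2)) ≤
    4 * (1 + 3 * ‖(∑ e : Fin R → Fin D, smp f m (kA q r₀ α) e k) / (D : ℂ) ^ R‖ *
        Real.exp (18 * κ)) := by
  obtain ⟨y, hy⟩ : ∃ y : Fin R → Fin D → ℂ, y = fun (r : Fin R) (i : Fin D) =>
    if (r : ℕ) < k then (∑ s ∈ range (2 ^ m), (f (r * D + i + s) : ℂ) *
      kA q r₀ α (r * D + i + s)) / 2 ^ m else 0 := ⟨_, rfl⟩
  have hy3 : ∀ r i, ‖y r i‖ ≤ 3 := by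
    intro r i
    rw [hy]
    simp only
    split_ifs
    · exact Pool.Agent.H10.ES.exa_block hq f hf r₀ α _
    · rw [norm_zero]; norm_num
  have hsmp : ∀ e : Fin R → Fin D, smp f m (kA q r₀ α) e k =
      (∑ r, y r (e r)) / (R : ℂ) := by
    intro e
    rw [hy]
    rfl
  have h1 := hH R D y κ hD hκ0 hR hy3
  simp only [hsmp]
  rw [Pool.Agent.H10.ES.exa_mean hD y]
  have hμ9 : ‖(∑ r, (∑ i, y r i) / (D : ℂ)) / (R : ℂ)‖ ≤ 3 := by
    have hR0 : (0 : ℝ) < (R : ℝ) := by exact_mod_cast hR1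
    have hD0 : (0 : ℝ) < (D : ℝ) := by exact_mod_cast hD
    rw [norm_div, Complex.norm_natCast, div_le_iff₀ hR0]
    refine (norm_sum_le _ _).trans ?_
    calc ∑ r : Fin R, ‖(∑ i, y r i) / (D : ℂ)‖ ≤
        ∑ _r : Fin R, (3 : ℝ) := by
          refine sum_le_sum fun r _ => ?_
          rw [norm_div, Complex.norm_natCast, div_le_iff₀ hD0]
          refine (norm_sum_le _ _).trans ?_
          calc ∑ i, ‖y r i‖ ≤ ∑ _i : Fin D, (3 : ℝ) :=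
                sum_le_sum fun i _ => hy3 r i
            _ = _ := by
              rw [sum_const, card_univ, Fintype.card_fin, nsmul_eq_mul]; ring
      _ = _ := by rw [sum_const, card_univ, Fintype.card_fin, nsmul_eq_mul]; ring
  refine h1.trans ?_
  refine mul_le_mul_of_nonneg_left ?_ (by norm_num)
  exact exb_exp (norm_nonneg _) hμ9

theorem exb_pow (m : ℕ) : (m : ℝ) * ((51 / 50 : ℝ) ^ (m + 1)) * 2 ^ (3 * (m : ℝ) / 4) ≤
    8 * 2 ^ m := by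
  have h1 : (m : ℝ) ≤ 20 / 3 * (23 / 20 : ℝ) ^ m := by
    have := one_add_mul_le_pow (by norm_num : (-2 : ℝ) ≤ 3 / 20) m
    have h2 : (1 + 3 / 20 : ℝ) = 23 / 20 := by norm_num
    rw [h2] at this
    linarith
  have h2 : ((23 / 20 : ℝ) * (51 / 50)) ^ m ≤ (2 : ℝ) ^ ((m : ℝ) / 4) := by
    have h3 : (23 / 20 : ℝ) * (51 / 50) ≤ (2 : ℝ) ^ (1 / 4 : ℝ) := by
      have h4 : ((23 / 20 : ℝ) * (51 / 50)) ^ (4 : ℕ) ≤ ((2 : ℝ) ^ (1 / 4 : ℝ)) ^ (4 : ℕ) := by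
        rw [← Real.rpow_mul_natCast (by norm_num : (0 : ℝ) ≤ 2)]
        norm_num
      exact le_of_pow_le_pow_left₀ (by norm_num) (Real.rpow_nonneg (by norm_num) _) h4
    have h5 : (2 : ℝ) ^ ((m : ℝ) / 4) = ((2 : ℝ) ^ (1 / 4 : ℝ)) ^ m := by
      rw [← Real.rpow_mul_natCast (by norm_num : (0 : ℝ) ≤ 2)]
      congr 1
      ring
    rw [h5]
    exact pow_le_pow_left₀ (by norm_num) h3 m
  have h6 : (m : ℝ) * ((51 / 50 : ℝ) ^ (m + 1)) ≤ 8 * (2 : ℝ) ^ ((m : ℝ) / 4) := by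
    calc (m : ℝ) * ((51 / 50 : ℝ) ^ (m + 1)) ≤
        (20 / 3 * (23 / 20 : ℝ) ^ m) * ((51 / 50 : ℝ) ^ (m + 1)) :=
          mul_le_mul_of_nonneg_right h1 (by positivity)
      _ = 34 / 5 * ((23 / 20 : ℝ) * (51 / 50)) ^ m := by
          rw [mul_pow, pow_succ]; ring
      _ ≤ 34 / 5 * (2 : ℝ) ^ ((m : ℝ) / 4) := mul_le_mul_of_nonneg_left h2 (by norm_num)
      _ ≤ 8 * (2 : ℝ) ^ ((m : ℝ) / 4) :=
          mul_le_mul_of_nonneg_right (by norm_num) (Real.rpow_nonneg (by norm_num) _)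
  calc (m : ℝ) * ((51 / 50 : ℝ) ^ (m + 1)) * 2 ^ (3 * (m : ℝ) / 4) ≤
      8 * (2 : ℝ) ^ ((m : ℝ) / 4) * 2 ^ (3 * (m : ℝ) / 4) :=
        mul_le_mul_of_nonneg_right h6 (Real.rpow_nonneg (by norm_num) _)
    _ = 8 * 2 ^ m := by
        rw [mul_assoc, ← Real.rpow_add (by norm_num : (0 : ℝ) < 2)]
        have h7 : (m : ℝ) / 4 + 3 * (m : ℝ) / 4 = (m : ℝ) := by ring
        rw [h7, Real.rpow_natCast]

/-- The bound for the exponential. -/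
theorem exb_card {c κ : ℝ} {w m : ℕ} (hc : 0 < c) (hcard : c * 2 ^ m / m ≤ ((oct m).card : ℝ))
    (hm : 1 ≤ m) (hw : w ≤ 400 * (m + 1)) (hκ : κ = (w : ℝ) / 10 ^ 6) :
    Real.exp (18 * κ) * 2 ^ (3 * (m : ℝ) / 4) ≤ 8 / c * ((oct m).card : ℝ) := by
  have hm0 : (0 : ℝ) < m := by exact_mod_cast hm
  have h1 : (w : ℝ) ≤ 400 * ((m : ℝ) + 1) := by exact_mod_cast hw
  have h2 : 18 * κ ≤ ((m + 1 : ℕ) : ℝ) * (1 / 100) := by
    rw [hκ]; push_cast; linarith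
  have h3 : Real.exp (1 / 100) ≤ 51 / 50 := by
    have := Real.exp_bound_div_one_sub_of_interval (by norm_num : (0 : ℝ) ≤ 1 / 100)
      (by norm_num)
    refine this.trans ?_
    norm_num
  have h4 : Real.exp (18 * κ) ≤ (51 / 50 : ℝ) ^ (m + 1) := by
    refine (Real.exp_le_exp.2 h2).trans ?_
    rw [Real.exp_nat_mul]
    exact pow_le_pow_left₀ (Real.exp_pos _).le h3 _
  obtain ⟨P, hP⟩ : ∃ P : ℝ, P = 2 ^ (3 * (m : ℝ) / 4) := ⟨_, rfl⟩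
  have hP0 : 0 < P := by rw [hP]; exact Real.rpow_pos_of_pos (by norm_num) _
  have h5 := exb_pow m
  rw [← hP] at h5 ⊢
  have h6 : (m : ℝ) * Real.exp (18 * κ) * P ≤ 8 * 2 ^ m :=
    (mul_le_mul_of_nonneg_right (mul_le_mul_of_nonneg_left h4 hm0.le) hP0.le).trans h5
  have h7 : c * 2 ^ m ≤ (oct m).card * (m : ℝ) := by
    rw [div_le_iff₀ hm0] at hcard; exact hcard
  rw [div_mul_eq_mul_div, le_div_iff₀ hc]
  have h8 : (Real.exp (18 * κ) * P * c) * m ≤ (8 * ((oct m).card : ℝ)) * m := by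
    calc (Real.exp (18 * κ) * P * c) * m = c * ((m : ℝ) * Real.exp (18 * κ) * P) := by ring
      _ ≤ c * (8 * 2 ^ m) := mul_le_mul_of_nonneg_left h6 hc.le
      _ = 8 * (c * 2 ^ m) := by ring
      _ ≤ 8 * ((oct m).card * (m : ℝ)) := mul_le_mul_of_nonneg_left h7 (by norm_num)
      _ = _ := by ring
  exact le_of_mul_le_mul_right h8 hm0

/-- The mean of the class means. -/
theorem exb_ls {C : ℝ} {m h w K : ℕ} (hL : ∀ (m h T : ℕ) (f g : ℤ → ℝ), (∀ t, |f t| ≤ 1) →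
    (∀ t, |g t| ≤ 1) → 2 ^ (8 * m + 20) * (h + 1) ≤ T →
    ∑ q ∈ oct m, (∑ r ∈ range q,
      |(∑ t ∈ range T, f t * g (t + q * h) * DR q (r + t)) / T|) / q ≤ C * 2 ^ (3 * (m : ℝ) / 4))
    (hmw : m ≤ w) (hT : 2 ^ (8 * m + 20) * (h + 1) ≤ 2 ^ w) (f : ℕ → ℝ)
    (hf : ∀ t, |f t| ≤ 1) :
    ∑ q ∈ oct m, (∑ r₀ ∈ range q, ‖(∑ t ∈ range (2 ^ w + 2 ^ m),
      ((fh f q h t * wt m K t : ℝ) : ℂ) * kA q r₀ 0 t) / 2 ^ w‖) / q ≤
      2 * (C * 2 ^ (3 * (m : ℝ) / 4)) := by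
  have hl := hL m h (2 ^ w + 2 ^ m) (fun t => f t.toNat * wt m K t.toNat) (fun t => f t.toNat)
    (by
      intro t
      rw [abs_mul]
      have h1 := Pool.Agent.H10.ES.exa_wt m K t.toNat
      rw [abs_of_nonneg h1.1]
      calc |f t.toNat| * wt m K t.toNat ≤ 1 * 1 :=
            mul_le_mul (hf _) h1.2 h1.1 (by norm_num)
        _ = 1 := one_mul 1) (fun t => hf _) (hT.trans (Nat.le_add_right _ _))
  have hmw' : (2 : ℕ) ^ m ≤ 2 ^ w := Nat.pow_le_pow_right (by norm_num) hmw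
  have hmw2 : (2 : ℝ) ^ m ≤ 2 ^ w := by exact_mod_cast hmw'
  obtain ⟨W, hW⟩ : ∃ W : ℝ, W = 2 ^ w := ⟨_, rfl⟩
  obtain ⟨T, hTT⟩ : ∃ T : ℕ, T = 2 ^ w + 2 ^ m := ⟨_, rfl⟩
  have hw0 : 0 < W := by rw [hW]; positivity
  have hT0 : (0 : ℝ) < (T : ℝ) := by rw [hTT]; positivity
  have hTW : (T : ℝ) ≤ 2 * W := by
    rw [hTT, hW]; push_cast; linarith
  rw [← hTT] at hl ⊢
  have hμ : ∀ q r₀ : ℕ, ‖(∑ t ∈ range T, ((fh f q h t * wt m K t : ℝ) : ℂ) * kA q r₀ 0 t) /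
      2 ^ w‖ ≤ 2 * |(∑ t ∈ range T, f (t : ℤ).toNat * wt m K (t : ℤ).toNat *
        f ((t : ℤ) + q * h).toNat * DR q (r₀ + t)) / T| := by
    intro q r₀
    have h1 : ∑ t ∈ range T, ((fh f q h t * wt m K t : ℝ) : ℂ) * kA q r₀ 0 t =
        ((∑ t ∈ range T, f (t : ℤ).toNat * wt m K (t : ℤ).toNat *
          f ((t : ℤ) + q * h).toNat * DR q (r₀ + t) : ℝ) : ℂ) := by
      rw [Complex.ofReal_sum]
      refine sum_congr rfl fun t _ => ?_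
      have e1 : ((t : ℤ) + q * h).toNat = t + q * h := by
        have : ((t : ℤ) + q * h) = ((t + q * h : ℕ) : ℤ) := by push_cast; ring
        rw [this, Int.toNat_natCast]
      have e2 : ee (-(0 * (t : ℝ))) = 1 := by
        unfold ee
        simp
      unfold kA fh
      rw [e1, Int.toNat_natCast, e2]
      push_cast
      ring
    rw [h1, norm_div, norm_pow, Complex.norm_ofNat, Complex.norm_real, Real.norm_eq_abs, ← hW,
      abs_div, Nat.abs_cast]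
    obtain ⟨A, hA⟩ : ∃ A, A = |∑ t ∈ range T, f (t : ℤ).toNat * wt m K (t : ℤ).toNat *
          f ((t : ℤ) + q * h).toNat * DR q (r₀ + t)| := ⟨_, rfl⟩
    rw [← hA]
    have hA0 : 0 ≤ A := by rw [hA]; exact abs_nonneg _
    rw [div_le_iff₀ hw0, mul_assoc, div_mul_eq_mul_div, mul_div_assoc', le_div_iff₀ hT0]
    nlinarith
  calc ∑ q ∈ oct m, (∑ r₀ ∈ range q, ‖(∑ t ∈ range T,
        ((fh f q h t * wt m K t : ℝ) : ℂ) * kA q r₀ 0 t) / 2 ^ w‖) / (q : ℝ) ≤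
      ∑ q ∈ oct m, 2 * ((∑ r₀ ∈ range q, |(∑ t ∈ range T,
        f (t : ℤ).toNat * wt m K (t : ℤ).toNat *
        f ((t : ℤ) + q * h).toNat * DR q (r₀ + t)) / T|) / q) := by
        refine sum_le_sum fun q _ => ?_
        rw [← mul_div_assoc, mul_sum]
        exact div_le_div_of_nonneg_right (sum_le_sum fun r₀ _ => hμ q r₀)
          (Nat.cast_nonneg q)
    _ ≤ 2 * (C * 2 ^ (3 * (m : ℝ) / 4)) := by
        rw [← mul_sum]
        exact mul_le_mul_of_nonneg_left hl (by norm_num)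

/-- Row EXB. -/
theorem pf_EXB (hH : T_HFC) (hM : T_MEA) (hL : T_LS2) (hP : Pool.Agent.H93.DE.T_PIL) : T_EXB := by
  obtain ⟨c, m₀, hc, hoct⟩ := hP
  obtain ⟨C, hC, hL⟩ := hL
  refine ⟨4 * (1 + 6 * C * (8 / c)), ?_, ?_⟩
  · have : 0 < 6 * C * (8 / c) := by positivity
    linarith
  intro h
  refine ⟨100000 + 400 * (m₀ + 1) + 2 * h, ?_⟩
  intro w m f hw hm1 hm2 hf
  have hmm : m₀ ≤ m := by omega
  have hmpos : 1 ≤ m := by omega
  have hmw : m ≤ w := by omega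
  have hw400 : w ≤ 400 * (m + 1) := by omega
  have hw5 : 10 ^ 5 ≤ w := by
    calc (10 : ℕ) ^ 5 = 100000 := by norm_num
      _ ≤ w := by omega
  have hT : 2 ^ (8 * m + 20) * (h + 1) ≤ 2 ^ w := by
    calc 2 ^ (8 * m + 20) * (h + 1) ≤ 2 ^ (8 * m + 20) * 2 ^ h :=
          Nat.mul_le_mul_left _ Nat.lt_two_pow_self
      _ = 2 ^ (8 * m + 20 + h) := by rw [← pow_add]
      _ ≤ 2 ^ w := Nat.pow_le_pow_right (by norm_num) (by omega)
  obtain ⟨κ, hκ⟩ : ∃ κ : ℝ, κ = (w : ℝ) / 10 ^ 6 := ⟨_, rfl⟩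
  have hκ0 : 0 ≤ κ := by rw [hκ]; positivity
  have hexp := exb_card hc (hoct m hmm) hmpos hw400 hκ
  have hR : 1000 * κ ≤ ((2 ^ rho w : ℕ) : ℝ) := by rw [hκ]; exact Pool.Agent.H10.ES.exa_R w
  rw [← hκ]
  have hffh : ∀ q t, |fh f q h t| ≤ 1 := by
    intro q t
    unfold fh
    rw [abs_mul]
    exact mul_le_one₀ (hf _) (abs_nonneg _) (hf _)
  obtain ⟨K, hK⟩ : ∃ K : ℕ, K = 2 ^ rho w * 2 ^ (w - rho w) := ⟨_, rfl⟩
  have hone : ∀ q ∈ oct m, ∀ r₀ : ℕ, avE (2 ^ rho w) (2 ^ (w - rho w)) (fun e =>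
        Real.exp (κ * ‖smp (fh f q h) m (kA q r₀ 0) e (2 ^ rho w)‖ ^ 2)) ≤
      4 * (1 + 3 * ‖(∑ t ∈ range (2 ^ w + 2 ^ m),
      ((fh f q h t * wt m K t : ℝ) : ℂ) * kA q r₀ 0 t) / 2 ^ w‖ * Real.exp (18 * κ)) := by
    intro q hq r₀
    have h1 := exb_smp hH (Nat.one_le_two_pow (n := w - rho w)) (Nat.one_le_two_pow (n := rho w))
      hκ0 hR hq (2 ^ rho w) (fh f q h) (hffh q) r₀ 0
    have h2 := hM w m (2 ^ rho w) (fh f q h) (kA q r₀ 0) hw5 hm2 le_rfl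
    have h4 : (((2 ^ (w - rho w) : ℕ) : ℂ)) ^ (2 ^ rho w) =
        ((2 : ℂ) ^ (w - rho w)) ^ (2 ^ rho w) := by
      rw [Nat.cast_pow, Nat.cast_ofNat]
    rw [h4, h2, ← hK] at h1
    exact h1
  have hsum := exb_ls (K := K) hL hmw hT f hf
  obtain ⟨μ, hμ⟩ : ∃ μ : ℕ → ℕ → ℝ, μ = fun q r₀ => ‖(∑ t ∈ range (2 ^ w + 2 ^ m),
      ((fh f q h t * wt m K t : ℝ) : ℂ) * kA q r₀ 0 t) / 2 ^ w‖ := ⟨_, rfl⟩
  have hμ0 : ∀ q r, 0 ≤ μ q r := fun q r => by rw [hμ]; exact norm_nonneg _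
  have hone' : ∀ q ∈ oct m, ∀ r₀ : ℕ, avE (2 ^ rho w) (2 ^ (w - rho w)) (fun e =>
        Real.exp (κ * ‖smp (fh f q h) m (kA q r₀ 0) e (2 ^ rho w)‖ ^ 2)) ≤
      4 * (1 + 3 * μ q r₀ * Real.exp (18 * κ)) := by
    intro q hq r₀
    rw [hμ]
    exact hone q hq r₀
  have hsum' : ∑ q ∈ oct m, (∑ r₀ ∈ range q, μ q r₀) / (q : ℝ) ≤
      2 * (C * 2 ^ (3 * (m : ℝ) / 4)) := by
    rw [hμ]
    exact hsum
  calc ∑ q ∈ oct m, (∑ r₀ ∈ range q, avE (2 ^ rho w) (2 ^ (w - rho w)) (fun e =>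
        Real.exp (κ * ‖smp (fh f q h) m (kA q r₀ 0) e (2 ^ rho w)‖ ^ 2))) / (q : ℝ) ≤
      ∑ q ∈ oct m, (∑ r₀ ∈ range q, 4 * (1 + 3 * μ q r₀ * Real.exp (18 * κ))) / q := by
        refine sum_le_sum fun q hq => ?_
        exact div_le_div_of_nonneg_right (sum_le_sum fun r₀ _ => hone' q hq r₀)
          (Nat.cast_nonneg q)
    _ = 4 * (((oct m).card : ℝ) + 3 * Real.exp (18 * κ) *
          ∑ q ∈ oct m, (∑ r₀ ∈ range q, μ q r₀) / q) := by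
        have h1 : ∀ q ∈ oct m,
            (∑ r₀ ∈ range q, 4 * (1 + 3 * μ q r₀ * Real.exp (18 * κ))) / (q : ℝ) =
            4 * (1 + 3 * Real.exp (18 * κ) * ((∑ r₀ ∈ range q, μ q r₀) / q)) := by
          intro q hq
          have hq0 : (q : ℝ) ≠ 0 := by
            have := (mem_filter.1 hq).2.pos
            positivity
          rw [← mul_sum, sum_add_distrib, sum_const, card_range, nsmul_eq_mul, mul_one,
            ← sum_mul, ← mul_sum]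
          field_simp
        rw [sum_congr rfl h1, ← mul_sum, sum_add_distrib, sum_const, nsmul_eq_mul, mul_one,
          ← mul_sum]
    _ ≤ 4 * (((oct m).card : ℝ) + 3 * Real.exp (18 * κ) * (2 * (C * 2 ^ (3 * (m : ℝ) / 4)))) := by
        refine mul_le_mul_of_nonneg_left ?_ (by norm_num)
        have h2 := mul_le_mul_of_nonneg_left hsum'
          (by positivity : 0 ≤ 3 * Real.exp (18 * κ))
        linarith
    _ = 4 * (((oct m).card : ℝ) + 6 * C * (Real.exp (18 * κ) * 2 ^ (3 * (m : ℝ) / 4))) := by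
        ring
    _ ≤ 4 * (((oct m).card : ℝ) + 6 * C * (8 / c * ((oct m).card : ℝ))) := by
        refine mul_le_mul_of_nonneg_left ?_ (by norm_num)
        have h2 := mul_le_mul_of_nonneg_left hexp (by positivity : 0 ≤ 6 * C)
        linarith
    _ = 4 * (1 + 6 * C * (8 / c)) * ((oct m).card : ℝ) := by ring

end Pool.Agent.H50.QP
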